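import Pool.Agent.T9h11.Energy

set_option autoImplicit false
open scoped Pointwise

namespace Pool.Agent.T9h11.Moved.ManyFoldEnergy

/-- Inverse theorem with polynomial bounds for many-fold additive energies, in an arbitrary abelian
group: let `m ≥ 2`, `k ≥ 1 + 4 m² log (2 K)` and `log (8 K) ≤ m ^ s`. If at least
`|A| ^ (2k-1) / K` pairs of `k`-tuples of elements of `A` have the same sum, then at least half of
the elements of `A` are covered by `(8 K) ^ (86000 s)` translates of a centred convex coset
progression of dimension at most `420 (1 + log (8 K) / log m)` and volume at most `|A|`. -/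
theorem result {Γ : Type*} [AddCommGroup Γ] [DecidableEq Γ] (s m k : ℕ) (hs : 1 ≤ s) (hm : 2 ≤ m)
    (K : ℝ) (hK : 1 ≤ K) (A : Finset Γ) (hA : A.Nonempty)
    (hk : 1 + 4 * (m : ℝ) ^ 2 * Real.log (2 * K) ≤ k) (hms : Real.log (8 * K) ≤ (m : ℝ) ^ s)
    (hE : (A.card : ℝ) ^ (2 * k - 1) ≤ K *
      (((Fintype.piFinset fun _ : Fin k => A) ×ˢ (Fintype.piFinset fun _ : Fin k => A)).filter
        (fun p => ∑ i, p.1 i = ∑ i, p.2 i)).card) :
    ∃ (d : ℕ) (B : Set (Fin d → ℝ)) (ψ : (Fin d → ℤ) →+ Γ) (H : AddSubgroup Γ)
      (T A' : Finset Γ),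
      (d : ℝ) ≤ 420 * (1 + Real.log (8 * K) / Real.log m) ∧
      Convex ℝ B ∧ IsCompact B ∧ (interior B).Nonempty ∧ (∀ x ∈ B, -x ∈ B) ∧
      Finite H ∧
      {x : Fin d → ℤ | (fun i => (x i : ℝ)) ∈ B}.ncard * Nat.card H ≤ A.card ∧
      (T.card : ℝ) ≤ (8 * K) ^ (86000 * s) ∧
      A' ⊆ A ∧ A.card ≤ 2 * A'.card ∧
      ∀ a ∈ A', ∃ t ∈ T, ∃ x : Fin d → ℤ, (fun i => (x i : ℝ)) ∈ B ∧
        ∃ h ∈ H, a = t + ψ x + h := by
  obtain ⟨A', hA', hcard, hsm⟩ := T9h11.Energy.exists_half hA hK (by omega) hk hE
  have hApos : (0 : ℝ) < A.card := by exact_mod_cast hA.card_pos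
  have hA'ne : A'.Nonempty := by
    rw [← Finset.card_pos]
    have : (0 : ℝ) < A'.card := by linarith
    exact_mod_cast this
  have hL : ((Pool.Agent.TH513.IS.sm A' m).card : ℝ) ≤ (4 * K) * A'.card := by
    refine hsm.trans ?_
    calc 2 * K * A.card ≤ 2 * K * (2 * A'.card) :=
          mul_le_mul_of_nonneg_left hcard (by linarith)
      _ = _ := by ring
  have h8 : 2 * (4 * K) = 8 * K := by ring
  obtain ⟨d, B, ψ, H, T, hd, hB, hH, hvol, hT, hcov⟩ :=
    Pool.Agent.TH513.IS.iterated hs hm hA'ne hL (by rw [h8]; exact hms)
  rw [h8] at hd hT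
  exact ⟨d, B, ψ, H, T, A', hd, hB.1, hB.2.1, hB.2.2.1, hB.2.2.2, hH,
    hvol.trans (Finset.card_le_card hA'), hT, hA', by exact_mod_cast hcard, hcov⟩

end Pool.Agent.T9h11.Moved.ManyFoldEnergy

/-
Former claim file of this former hand-in (moved out in favour of MP_dd2a7c_co.SymmetricSets):

Proves: Let A be a finite nonempty subset of an abelian group, K ≥ 1, and s ≥ 1, m ≥ 2, k integers with log(8K) ≤ m^s and k ≥ 1 + 4m² log(2K). If at least |A|^(2k-1)/K pairs of k-tuples of elements of A have equal sums (k-fold additive energy within a factor K of its maximum), then at least half of the elements of A are covered by (8K)^(86000 s) translates of one centered convex coset progression of dimension at most 420(1 + log(8K)/log m) and volume at most |A|. So for every fixed c > 0 the hypothesis for some k ≥ C_c (log 8K)^(1+c) gives the conclusion of Q1, with constants depending only on c, for half of A; nothing is assumed about A+A or nA.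
Definitions: The convex body B, the homomorphism ψ, the finite subgroup H and the set T of translates are quantified in the statement as in the problem file; the volume is the number of integer points of B times |H|; log is natural.
Relation: Partial result on Q1 (polynomial bounds, energy hypothesis of high order instead of small doubling). It extends the earlier hand-in IteratedSumsets, whose hypothesis bounds the size of the sumset nA, to the statistical (Balog-Szemeredi-Gowers type) setting; not known to us from the literature.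
-/
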